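import Mathlib

set_option autoImplicit false

universe u

namespace Pool.Agent.Results.MP_bf7e1e_gt.DimProduct

open Set

/-- A cozero set: the set of points where some continuous real function does not vanish. -/
def IsCozero {Z : Type u} [TopologicalSpace Z] (s : Set Z) : Prop :=
  ∃ f : Z → ℝ, Continuous f ∧ s = {z | f z ≠ 0}

/-- `dim Z ≤ n`: every finite cover of `Z` by cozero sets has a finite refinement by cozero sets
which covers `Z` and such that each point lies in at most `n + 1` members of it. -/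
def DimLE (Z : Type u) [TopologicalSpace Z] (n : ℤ) : Prop :=
  ∀ 𝒰 : Set (Set Z), 𝒰.Finite → (∀ U ∈ 𝒰, IsCozero U) → ⋃₀ 𝒰 = univ →
    ∃ 𝒱 : Set (Set Z), 𝒱.Finite ∧ (∀ V ∈ 𝒱, IsCozero V) ∧ ⋃₀ 𝒱 = univ ∧
      (∀ V ∈ 𝒱, ∃ U ∈ 𝒰, V ⊆ U) ∧ ∀ z : Z, ({V ∈ 𝒱 | z ∈ V}.ncard : ℤ) ≤ n + 1

/-- The covering dimension of `Z`: the least integer `n ≥ -1` with `dim Z ≤ n`, and infinity if
there is none. -/
noncomputable def covDim (Z : Type u) [TopologicalSpace Z] : EReal :=
  sInf {d : EReal | ∃ n : ℤ, -1 ≤ n ∧ DimLE Z n ∧ d = ((n : ℝ) : EReal)}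

lemma IsCozero.isOpen {Z : Type u} [TopologicalSpace Z] {s : Set Z} (h : IsCozero s) :
    IsOpen s := by
  obtain ⟨f, hf, rfl⟩ := h
  exact isOpen_ne.preimage hf

lemma isCozero_of_isClopen {Z : Type u} [TopologicalSpace Z] {s : Set Z} (h : IsClopen s) :
    IsCozero s := by
  classical
  refine ⟨s.indicator 1, h.continuous_indicator continuous_const, ?_⟩
  ext z
  by_cases hz : z ∈ s <;> simp [hz]

lemma dimLE_mono {Z : Type u} [TopologicalSpace Z] {m n : ℤ} (h : DimLE Z m) (hmn : m ≤ n) :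
    DimLE Z n := by
  intro 𝒰 h1 h2 h3
  obtain ⟨𝒱, k1, k2, k3, k4, k5⟩ := h 𝒰 h1 h2 h3
  exact ⟨𝒱, k1, k2, k3, k4, fun z => (k5 z).trans (by linarith)⟩

lemma not_dimLE_neg_one {Z : Type u} [TopologicalSpace Z] [hne : Nonempty Z] :
    ¬ DimLE Z (-1) := by
  intro h
  obtain ⟨𝒱, k1, k2, k3, k4, k5⟩ := h {univ} (finite_singleton _)
    (by
      rintro U rfl
      exact isCozero_of_isClopen isClopen_univ) (by simp)
  obtain ⟨z⟩ := hne
  have hz : z ∈ ⋃₀ 𝒱 := by rw [k3]; trivial
  obtain ⟨V, hV, hzV⟩ := hz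
  have h0 := k5 z
  have h1 : {V ∈ 𝒱 | z ∈ V}.Nonempty := ⟨V, hV, hzV⟩
  have h2 : 0 < {V ∈ 𝒱 | z ∈ V}.ncard :=
    (Set.ncard_pos (k1.subset (sep_subset _ _))).mpr h1
  omega

lemma covDim_eq_zero {Z : Type u} [TopologicalSpace Z] [Nonempty Z] (h : DimLE Z 0) :
    covDim Z = 0 := by
  apply le_antisymm
  · refine sInf_le ⟨0, by norm_num, h, by simp⟩
  · refine le_sInf ?_
    rintro d ⟨n, hn, hd, rfl⟩
    have : 0 ≤ n := by
      by_contra hlt
      push Not at hlt
      exact not_dimLE_neg_one (dimLE_mono hd (by omega))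
    exact_mod_cast this

lemma one_le_covDim {Z : Type u} [TopologicalSpace Z] (h : ¬ DimLE Z 0) :
    1 ≤ covDim Z := by
  refine le_sInf ?_
  rintro d ⟨n, hn, hd, rfl⟩
  have : 1 ≤ n := by
    by_contra hlt
    push Not at hlt
    exact h (dimLE_mono hd (by omega))
  exact_mod_cast this

lemma dimLE_zero_of_clopen {Z : Type u} [TopologicalSpace Z]
    (h : ∀ 𝒰 : Set (Set Z), 𝒰.Finite → (∀ U ∈ 𝒰, IsOpen U) → ⋃₀ 𝒰 = univ →
      ∃ C : ℕ → Set Z, (∀ n, IsClopen (C n)) ∧ (⋃ n, C n) = univ ∧ ∀ n, ∃ U ∈ 𝒰, C n ⊆ U) :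
    DimLE Z 0 := by
  classical
  intro 𝒰 hfin hco hcov
  obtain ⟨C, hC1, hC2, hC3⟩ := h 𝒰 hfin (fun U hU => (hco U hU).isOpen) hcov
  choose g hg1 hg2 using hC3
  have hex : ∀ z : Z, ∃ n, z ∈ C n := by
    intro z
    have : z ∈ ⋃ n, C n := by rw [hC2]; trivial
    exact mem_iUnion.mp this
  let N : Z → ℕ := fun z => Nat.find (hex z)
  have hN : IsLocallyConstant N := by
    rw [IsLocallyConstant.iff_isOpen_fiber]
    intro n
    have : N ⁻¹' {n} = C n \ ⋃ m ∈ Iio n, C m := by
      ext z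
      simp only [mem_preimage, mem_singleton_iff, mem_sdiff, mem_iUnion, mem_Iio, exists_prop,
        not_exists, not_and, N]
      exact Nat.find_eq_iff (hex z)
    rw [this]
    refine (hC1 n).isOpen.sdiff ?_
    exact (finite_Iio n).isClosed_biUnion (fun m _ => (hC1 m).isClosed)
  have hNz : ∀ z, z ∈ C (N z) := fun z => Nat.find_spec (hex z)
  have hF : IsLocallyConstant (fun z => g (N z)) := hN.comp g
  let V : Set Z → Set Z := fun U => {z | g (N z) = U}
  refine ⟨V '' 𝒰, hfin.image V, ?_, ?_, ?_, ?_⟩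
  · rintro _ ⟨U, _, rfl⟩
    exact isCozero_of_isClopen (hF.isClopen_fiber U)
  · apply eq_univ_of_forall
    intro z
    exact ⟨V (g (N z)), mem_image_of_mem V (hg1 _), rfl⟩
  · rintro _ ⟨U, hU, rfl⟩
    refine ⟨U, hU, ?_⟩
    intro z hz
    have hz' : g (N z) = U := hz
    rw [← hz']
    exact hg2 _ (hNz z)
  · intro z
    have hsub : {V' ∈ V '' 𝒰 | z ∈ V'} ⊆ {V (g (N z))} := by
      rintro _ ⟨⟨U, hU, rfl⟩, hz⟩
      have hz' : g (N z) = U := hz
      rw [hz']
      rfl
    have h1 := Set.ncard_le_ncard hsub (finite_singleton _)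
    rw [Set.ncard_singleton] at h1
    push_cast
    have : ({V' ∈ V '' 𝒰 | z ∈ V'}.ncard : ℤ) ≤ 1 := by exact_mod_cast h1
    simpa using this

/-- A Lindelöf space with a base of clopen sets has covering dimension at most zero. -/
lemma dimLE_zero_of_lindelof {Z : Type u} [TopologicalSpace Z] [LindelofSpace Z] [Nonempty Z]
    (h : ∀ (z : Z) (O : Set Z), IsOpen O → z ∈ O → ∃ C : Set Z, IsClopen C ∧ z ∈ C ∧ C ⊆ O) :
    DimLE Z 0 := by
  classical
  apply dimLE_zero_of_clopen
  intro 𝒰 _ hop hcov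
  have h1 : ∀ z : Z, ∃ C : Set Z, IsClopen C ∧ z ∈ C ∧ ∃ U ∈ 𝒰, C ⊆ U := by
    intro z
    have hz : z ∈ ⋃₀ 𝒰 := by rw [hcov]; trivial
    obtain ⟨U, hU, hzU⟩ := hz
    obtain ⟨C, hC, hzC, hCU⟩ := h z U (hop U hU) hzU
    exact ⟨C, hC, hzC, U, hU, hCU⟩
  choose C hC hzC hCU using h1
  obtain ⟨t, ht, hcov2⟩ := countable_cover_nhds (fun z => (hC z).isOpen.mem_nhds (hzC z))
  have hne : t.Nonempty := by
    by_contra hn
    rw [not_nonempty_iff_eq_empty] at hn
    subst hn
    obtain ⟨z⟩ := (inferInstance : Nonempty Z)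
    have : z ∈ ⋃ x ∈ (∅ : Set Z), C x := by rw [hcov2]; trivial
    simp at this
  obtain ⟨f, hf⟩ := ht.exists_eq_range hne
  refine ⟨fun n => C (f n), fun n => hC _, ?_, fun n => hCU _⟩
  rw [← hcov2, hf, biUnion_range]

section choice

open Cardinal

lemma exists_inj_choice {ι α : Type} (P : ι → Set α) (hP : ∀ i, #ι ≤ #(P i)) :
    ∃ x : ι → α, Function.Injective x ∧ ∀ i, x i ∈ P i := by
  classical
  obtain ⟨r, wo, hr⟩ := Cardinal.exists_ord_eq ι
  have key : ∀ (i : ι) (f : (j : ι) → r j i → α),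
      ∃ y ∈ P i, ∀ j (h : r j i), f j h ≠ y := by
    intro i f
    by_contra hcon
    push Not at hcon
    have h1 : P i ⊆ Set.range (fun j : {j : ι // r j i} => f j.1 j.2) := by
      intro y hy
      obtain ⟨j, hj, hjy⟩ := hcon y hy
      exact ⟨⟨j, hj⟩, hjy⟩
    have h2 : #(P i) ≤ #{j : ι // r j i} := (Cardinal.mk_le_mk_of_subset h1).trans mk_range_le
    have h3 : #{j : ι // r j i} < #ι := by
      have := Cardinal.card_typein_lt (r := r) i hr
      rwa [Ordinal.card_typein] at this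
    exact absurd (h2.trans_lt h3) (not_lt.mpr (hP i))
  let F : (i : ι) → ((j : ι) → r j i → α) → α := fun i f => Classical.choose (key i f)
  have hF : ∀ (i : ι) (f : (j : ι) → r j i → α), F i f ∈ P i ∧ ∀ j (h : r j i), f j h ≠ F i f :=
    fun i f => Classical.choose_spec (key i f)
  have hwf : WellFounded r := wo.wf
  let x : ι → α := hwf.fix F
  have hx : ∀ i, x i = F i (fun j _ => x j) := fun i => hwf.fix_eq F i
  have hne : ∀ i j, r j i → x j ≠ x i := by
    intro i j hji
    rw [hx i]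
    exact (hF i (fun j _ => x j)).2 j hji
  refine ⟨x, ?_, ?_⟩
  · intro i j hij
    by_contra hn
    rcases trichotomous_of r i j with h | h | h
    · exact hne j i h hij
    · exact hn h
    · exact hne i j h hij.symm
  · intro i
    rw [hx i]
    exact (hF i (fun j _ => x j)).1

lemma mk_closed_le : #{P : Set ℝ // IsClosed P} ≤ 𝔠 := by
  have h1 : #{P : Set ℝ // IsClosed P} ≤ #(Set (ℚ × ℚ)) := by
    refine Cardinal.mk_le_of_injective
      (f := fun P => {q : ℚ × ℚ | Disjoint (Ioo (q.1 : ℝ) q.2) P.1}) ?_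
    have key : ∀ P Q : {P : Set ℝ // IsClosed P},
        {q : ℚ × ℚ | Disjoint (Ioo (q.1 : ℝ) q.2) P.1}
          = {q : ℚ × ℚ | Disjoint (Ioo (q.1 : ℝ) q.2) Q.1} → Q.1 ⊆ P.1 := by
      intro P Q h x hxQ
      by_contra hxP
      have h2 : P.1ᶜ ∈ nhds x := P.2.isOpen_compl.mem_nhds hxP
      obtain ⟨a, b, hab, hsub⟩ := mem_nhds_iff_exists_Ioo_subset.mp h2
      obtain ⟨p, hp1, hp2⟩ := exists_rat_btwn hab.1
      obtain ⟨q, hq1, hq2⟩ := exists_rat_btwn hab.2
      have h3 : (p, q) ∈ {q : ℚ × ℚ | Disjoint (Ioo (q.1 : ℝ) q.2) P.1} := by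
        refine Set.disjoint_left.mpr ?_
        intro y hy hyP
        exact hsub ⟨hp1.trans hy.1, hy.2.trans hq2⟩ hyP
      rw [h] at h3
      exact Set.disjoint_left.mp h3 ⟨hp2, hq1⟩ hxQ
    intro P Q h
    exact Subtype.ext (Subset.antisymm (key Q P h.symm) (key P Q h))
  refine h1.trans ?_
  simp

lemma mk_closed_unc (P : Set ℝ) (h1 : IsClosed P) (h2 : ¬ P.Countable) : 𝔠 ≤ #P := by
  obtain ⟨f, hf, _, hinj⟩ := h1.exists_nat_bool_injection_of_not_countable h2
  have h3 : #(ℕ → Bool) ≤ #P := by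
    refine Cardinal.mk_le_of_injective (f := fun x => (⟨f x, hf (mem_range_self x)⟩ : P)) ?_
    intro a b hab
    exact hinj (congrArg Subtype.val hab)
  simpa using h3

lemma exists_rho (W : Type) [Nonempty W] (hW : #W ≤ 𝔠) :
    ∃ ρ : ℝ → W, ∀ P : Set ℝ, IsClosed P → ¬ P.Countable → ∀ α, ∃ y ∈ P, ρ y = α := by
  classical
  let ι := {P : Set ℝ // IsClosed P ∧ ¬ P.Countable} × W
  have hι : #ι ≤ 𝔠 := by
    have h1 : #{P : Set ℝ // IsClosed P ∧ ¬ P.Countable} ≤ 𝔠 := by
      refine le_trans ?_ mk_closed_le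
      refine Cardinal.mk_le_of_injective
        (f := fun P : {P : Set ℝ // IsClosed P ∧ ¬ P.Countable} =>
          (⟨P.1, P.2.1⟩ : {P : Set ℝ // IsClosed P})) ?_
      intro a b hab
      exact Subtype.ext (congrArg (fun z : {P : Set ℝ // IsClosed P} => z.1) hab)
    calc #ι = #{P : Set ℝ // IsClosed P ∧ ¬ P.Countable} * #W := by simp [ι]
      _ ≤ 𝔠 * 𝔠 := mul_le_mul' h1 hW
      _ = 𝔠 := continuum_mul_self
  obtain ⟨x, hinj, hx⟩ := exists_inj_choice (fun i : ι => i.1.1)
    (fun i => hι.trans (mk_closed_unc _ i.1.2.1 i.1.2.2))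
  refine ⟨fun y => if h : ∃ i, x i = y then (Classical.choose h).2 else Classical.arbitrary W, ?_⟩
  intro P hP1 hP2 α
  refine ⟨x (⟨P, hP1, hP2⟩, α), hx (⟨P, hP1, hP2⟩, α), ?_⟩
  have h : ∃ i, x i = x (⟨P, hP1, hP2⟩, α) := ⟨_, rfl⟩
  beta_reduce
  rw [dif_pos h]
  have := hinj (Classical.choose_spec h)
  rw [this]

end choice

open Filter Topology

section wfacts

set_option linter.unusedSectionVars false
set_option linter.unusedVariables false

variable {W : Type} [LinearOrder W] [WellFoundedLT W]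

lemma exists_bound (hc : ∀ a : W, (Iio a).Countable) (hu : ¬ (univ : Set W).Countable)
    {A : Set W} (hA : A.Countable) : ∃ b, ∀ a ∈ A, a < b := by
  by_contra h
  push Not at h
  apply hu
  have hsub : (univ : Set W) ⊆ ⋃ a ∈ A, Iic a := by
    intro x _
    obtain ⟨a, haA, hxa⟩ := h x
    exact mem_biUnion haA hxa
  refine (hA.biUnion ?_).mono hsub
  intro a _
  rw [← Iio_insert]
  exact (hc a).insert a

lemma exists_gt' (hc : ∀ a : W, (Iio a).Countable) (hu : ¬ (univ : Set W).Countable)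
    (a : W) : ∃ b, a < b := by
  obtain ⟨b, hb⟩ := exists_bound hc hu (A := {a}) (by simp)
  exact ⟨b, hb a rfl⟩

lemma exists_sup (hc : ∀ a : W, (Iio a).Countable) (hu : ¬ (univ : Set W).Countable)
    (f : ℕ → W) (hf : StrictMono f) :
    ∃ d, (∀ n, f n < d) ∧ ∀ a < d, ∃ n, a ≤ f n := by
  have hex : {b : W | ∀ n, f n < b}.Nonempty := by
    obtain ⟨b, hb⟩ := exists_bound hc hu (A := range f) (countable_range f)
    exact ⟨b, fun n => hb _ (mem_range_self n)⟩
  refine ⟨wellFounded_lt.min {b : W | ∀ n, f n < b} hex,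
    wellFounded_lt.min_mem {b : W | ∀ n, f n < b} hex, ?_⟩
  intro a ha
  by_contra hno
  push Not at hno
  exact wellFounded_lt.not_lt_min {b : W | ∀ n, f n < b} (x := a) hno ha

variable [TopologicalSpace W] [OrderTopology W]

lemma isClopen_Iic (hc : ∀ a : W, (Iio a).Countable) (hu : ¬ (univ : Set W).Countable)
    (a : W) : IsClopen (Iic a) := by
  refine ⟨isClosed_Iic, ?_⟩
  have hex : {b : W | a < b}.Nonempty := exists_gt' hc hu a
  have : Iic a = Iio (wellFounded_lt.min {b : W | a < b} hex) := by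
    ext x
    simp only [mem_Iic, mem_Iio]
    constructor
    · intro h
      exact h.trans_lt (wellFounded_lt.min_mem {b : W | a < b} hex)
    · intro h
      by_contra hno
      push Not at hno
      exact wellFounded_lt.not_lt_min {b : W | a < b} (x := x) hno h
  rw [this]
  exact isOpen_Iio

end wfacts

section space

variable {W : Type} [LinearOrder W] [TopologicalSpace W]

/-- The functions which form the second factor. -/
def Good (ρ : ℝ → W) (u : W → ℝ) : Prop :=
  Monotone u ∧ (∀ a, ρ (u a) ≤ a) ∧ LowerSemicontinuous u ∧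
    ∀ g, (u '' Iic g).Finite ∨ ∀ a, g ≤ a → u a = u g

/-- The second factor, with the topology of pointwise convergence. -/
abbrev YY (ρ : ℝ → W) : Type := {u : W → ℝ // Good ρ u}

lemma eval_cont [WellFoundedLT W] [OrderTopology W]
    (hc : ∀ a : W, (Iio a).Countable) (hu : ¬ (univ : Set W).Countable) (ρ : ℝ → W) :
    Continuous (fun p : W × YY ρ => p.2.1 p.1) := by
  rw [continuous_iff_continuousAt]
  rintro ⟨a, u⟩
  rw [Metric.continuousAt_iff']
  intro ε hε
  have h1 : ∀ᶠ c in 𝓝 a, u.1 a - ε / 2 < u.1 c := u.2.2.2.1 a _ (by linarith)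
  have hS : {c | u.1 a - ε / 2 < u.1 c}.Nonempty := ⟨a, by simp; linarith⟩
  set b := wellFounded_lt.min {c | u.1 a - ε / 2 < u.1 c} hS with hb
  have hb1 : u.1 a - ε / 2 < u.1 b := wellFounded_lt.min_mem {c | u.1 a - ε / 2 < u.1 c} hS
  have hb2 : ∀ c, u.1 a - ε / 2 < u.1 c → b ≤ c := by
    intro c hc'
    exact not_lt.mp (wellFounded_lt.not_lt_min {c | u.1 a - ε / 2 < u.1 c} (x := c) hc')
  have h2 : ∀ᶠ c in 𝓝 a, b ≤ c ∧ c ≤ a := by
    filter_upwards [h1, (isClopen_Iic hc hu a).isOpen.mem_nhds (self_mem_Iic)] with c hc1 hc2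
    exact ⟨hb2 c hc1, hc2⟩
  have hcoord : ∀ c : W, ∀ᶠ z in 𝓝 u, |z.1 c - u.1 c| < ε / 2 := by
    intro c
    have hcont : Continuous (fun z : YY ρ => z.1 c) :=
      (continuous_apply c).comp continuous_subtype_val
    have := Metric.continuousAt_iff'.mp (hcont.continuousAt (x := u)) (ε / 2) (by linarith)
    simpa [Real.dist_eq] using this
  have h3 : ∀ᶠ z in 𝓝 u, |z.1 b - u.1 b| < ε / 2 ∧ |z.1 a - u.1 a| < ε / 2 :=
    (hcoord b).and (hcoord a)
  have h4 := h2.prodMk_nhds h3
  filter_upwards [h4] with p hp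
  obtain ⟨⟨hp1, hp2⟩, hp3, hp4⟩ := hp
  rw [Real.dist_eq, abs_lt]
  rw [abs_lt] at hp3 hp4
  have h5 := p.2.2.1 hp1
  have h6 := p.2.2.1 hp2
  constructor <;> linarith

lemma coord_cont (ρ : ℝ → W) (c : W) : Continuous (fun z : YY ρ => z.1 c) :=
  (continuous_apply c).comp continuous_subtype_val

/-- Eventually in `C`, uniformly near `u`. -/
def Zp {ρ : ℝ → W} (C : Set (W × YY ρ)) (u : YY ρ) : Prop :=
  ∃ ε > 0, ∃ g : W, ∀ a, g < a → ∀ z : YY ρ, (∀ b, |z.1 b - u.1 b| < ε) → (a, z) ∈ C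

lemma zp_or [WellFoundedLT W] [OrderTopology W]
    (hc : ∀ a : W, (Iio a).Countable) (hu : ¬ (univ : Set W).Countable) {ρ : ℝ → W}
    {C : Set (W × YY ρ)} (hC : IsClopen C) (u : YY ρ) : Zp C u ∨ Zp Cᶜ u := by
  classical
  by_contra hcon
  push Not at hcon
  obtain ⟨h1, h2⟩ := hcon
  unfold Zp at h1 h2
  push Not at h1 h2
  have hpos : ∀ n : ℕ, (0 : ℝ) < 1 / ((n : ℝ) + 1) := fun n => by positivity
  have hstep : ∀ (n : ℕ) (g : W), ∃ g' : W, ∃ a z a' z', g < a ∧ a < g' ∧ g < a' ∧ a' < g' ∧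
      (∀ b, |(z : YY ρ).1 b - u.1 b| < 1 / ((n : ℝ) + 1)) ∧
      (∀ b, |(z' : YY ρ).1 b - u.1 b| < 1 / ((n : ℝ) + 1)) ∧ (a, z) ∉ C ∧ (a', z') ∈ C := by
    intro n g
    obtain ⟨a, ha, z, hz, hzC⟩ := h1 _ (hpos n) g
    obtain ⟨a', ha', z', hz', hzC'⟩ := h2 _ (hpos n) g
    obtain ⟨g', hg'⟩ := exists_bound hc hu (A := {a, a'}) (by simp)
    refine ⟨g', a, z, a', z', ha, hg' _ (by simp), ha', hg' _ (by simp), hz, hz', hzC, ?_⟩
    simpa using hzC'
  choose G A Z A' Z' k1 k2 k3 k4 k5 k6 k7 k8 using hstep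
  have hne : Nonempty W := by
    by_contra hne
    rw [not_nonempty_iff] at hne
    exact hu (Set.countable_univ)
  let γ : ℕ → W := fun n => Nat.rec (Classical.choice hne) (fun n x => G n x) n
  have hγs : ∀ n, γ (n + 1) = G n (γ n) := fun n => rfl
  have hγlt : ∀ n, γ n < γ (n + 1) := fun n => (k1 n (γ n)).trans (k2 n (γ n))
  have hmono : StrictMono γ := strictMono_nat_of_lt_succ hγlt
  obtain ⟨d, hd1, hd2⟩ := exists_sup hc hu γ hmono
  have htend : ∀ B : ℕ → W, (∀ n, γ n < B n) → (∀ n, B n < γ (n + 1)) →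
      Tendsto B atTop (𝓝 d) := by
    intro B hB1 hB2
    rw [tendsto_order]
    constructor
    · intro a ha
      obtain ⟨n, hn⟩ := hd2 a ha
      filter_upwards [eventually_ge_atTop n] with m hm
      exact (hn.trans (hmono.monotone hm)).trans_lt (hB1 m)
    · intro a ha
      exact Eventually.of_forall (fun n => ((hB2 n).trans (hd1 (n + 1))).trans ha)
  have htz : ∀ B : ℕ → YY ρ, (∀ n b, |(B n).1 b - u.1 b| < 1 / ((n : ℝ) + 1)) →
      Tendsto B atTop (𝓝 u) := by
    intro B hB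
    rw [tendsto_subtype_rng, tendsto_pi_nhds]
    intro b
    rw [tendsto_iff_dist_tendsto_zero]
    refine squeeze_zero (fun n => dist_nonneg) (fun n => ?_)
      (tendsto_one_div_add_atTop_nhds_zero_nat (𝕜 := ℝ))
    rw [Real.dist_eq]
    exact (hB n b).le
  have t1 : Tendsto (fun n => (A n (γ n), Z n (γ n))) atTop (𝓝 (d, u)) :=
    (htend _ (fun n => k1 n (γ n)) (fun n => k2 n (γ n))).prodMk_nhds
      (htz _ (fun n => k5 n (γ n)))
  have t2 : Tendsto (fun n => (A' n (γ n), Z' n (γ n))) atTop (𝓝 (d, u)) :=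
    (htend _ (fun n => k3 n (γ n)) (fun n => k4 n (γ n))).prodMk_nhds
      (htz _ (fun n => k6 n (γ n)))
  by_cases hdu : (d, u) ∈ C
  · have := t1.eventually (hC.isOpen.mem_nhds hdu)
    obtain ⟨n, hn⟩ := this.exists
    exact k7 n (γ n) hn
  · have := t2.eventually (hC.compl.isOpen.mem_nhds hdu)
    obtain ⟨n, hn⟩ := this.exists
    exact hn (k8 n (γ n))

lemma clopen_base {ρ : ℝ → W} (hρ : ∀ a b : ℝ, a < b → ∀ α : W, ∃ y ∈ Ioo a b, ¬ ρ y ≤ α)
    (z : YY ρ) (O : Set (YY ρ)) (hO : IsOpen O) (hz : z ∈ O) :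
    ∃ C : Set (YY ρ), IsClopen C ∧ z ∈ C ∧ C ⊆ O := by
  classical
  obtain ⟨O', hO', rfl⟩ := isOpen_induced_iff.mp hO
  obtain ⟨I, V, hV, hsub⟩ := isOpen_pi_iff.mp hO' z.1 hz
  have h1 : ∀ a : W, ∃ p q : ℝ, a ∈ I → (p < z.1 a ∧ z.1 a < q ∧ Ioo p q ⊆ V a ∧
      ¬ ρ p ≤ a ∧ ¬ ρ q ≤ a) := by
    intro a
    by_cases ha : a ∈ I
    · obtain ⟨l, r, hlr, hlr2⟩ := mem_nhds_iff_exists_Ioo_subset.mp
        ((hV a ha).1.mem_nhds (hV a ha).2)
      obtain ⟨p, hp1, hp2⟩ := hρ l (z.1 a) hlr.1 a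
      obtain ⟨q, hq1, hq2⟩ := hρ (z.1 a) r hlr.2 a
      refine ⟨p, q, fun _ => ⟨hp1.2, hq1.1, ?_, hp2, hq2⟩⟩
      intro x hx
      exact hlr2 ⟨hp1.1.trans hx.1, hx.2.trans hq1.2⟩
    · exact ⟨0, 0, fun h => absurd h ha⟩
  choose p q hpq using h1
  refine ⟨⋂ a ∈ I, {w : YY ρ | w.1 a ∈ Ioo (p a) (q a)}, ?_, ?_, ?_⟩
  · refine isClopen_biInter_finset ?_
    intro a ha
    constructor
    · have : {w : YY ρ | w.1 a ∈ Ioo (p a) (q a)} = {w : YY ρ | w.1 a ∈ Icc (p a) (q a)} := by
        ext w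
        have hw := w.2.2.1 a
        have h2 := (hpq a ha).2.2.2
        constructor
        · intro h
          exact ⟨h.1.le, h.2.le⟩
        · intro h
          refine ⟨lt_of_le_of_ne h.1 ?_, lt_of_le_of_ne h.2 ?_⟩
          · intro he
            exact h2.1 (he ▸ hw)
          · intro he
            exact h2.2 (he ▸ hw)
      rw [this]
      exact isClosed_Icc.preimage (coord_cont ρ a)
    · exact isOpen_Ioo.preimage (coord_cont ρ a)
  · simp only [mem_iInter]
    intro a ha
    exact ⟨(hpq a ha).1, (hpq a ha).2.1⟩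
  · intro w hw
    apply hsub
    intro a ha
    simp only [mem_iInter] at hw
    exact (hpq a ha).2.2.1 (hw a ha)

lemma trunc_good [OrderTopology W] {ρ : ℝ → W} {y : W → ℝ} (hy : Good ρ y) (g : W)
    (hfin : (y '' Iic g).Finite) : Good ρ (fun a => y (min a g)) := by
  obtain ⟨h1, h2, h3, h4⟩ := hy
  refine ⟨?_, ?_, ?_, ?_⟩
  · intro a b hab
    exact h1 (min_le_min hab le_rfl)
  · intro a
    exact (h2 _).trans (min_le_left _ _)
  · intro a r hr
    have hcm : Continuous (fun a : W => min a g) := continuous_id.min continuous_const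
    exact (hcm.tendsto a).eventually (h3 (min a g) r hr)
  · intro g'
    left
    refine hfin.subset ?_
    rintro _ ⟨a, _, rfl⟩
    exact ⟨min a g, min_le_right _ _, rfl⟩

/-- The functions which are constant from `g` on. -/
def Yc (ρ : ℝ → W) (g : W) : Set (YY ρ) := {u | ∀ a, g ≤ a → u.1 a = u.1 g}

lemma secondCountable_Yc [OrderTopology W] (hc : ∀ a : W, (Iic a).Countable) (ρ : ℝ → W) (g : W) :
    SecondCountableTopology (Yc ρ g) := by
  have : Countable (Iic g) := (hc g).to_subtype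
  let r : Yc ρ g → (Iic g → ℝ) := fun u a => u.1.1 a.1
  let s : (Iic g → ℝ) → (W → ℝ) := fun v a => v ⟨min a g, min_le_right _ _⟩
  have hs : Continuous s := by
    refine continuous_pi (fun a => ?_)
    exact continuous_apply (⟨min a g, min_le_right _ _⟩ : Iic g)
  have hr : Continuous r := by
    refine continuous_pi (fun a => ?_)
    exact (coord_cont ρ a.1).comp continuous_subtype_val
  have hsr : s ∘ r = fun u => u.1.1 := by
    funext u
    funext a
    change u.1.1 (min a g) = u.1.1 a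
    rcases le_total a g with h | h
    · rw [min_eq_left h]
    · rw [min_eq_right h]
      exact (u.2 a h).symm
  have hind : IsInducing (s ∘ r) := by
    rw [hsr]
    exact IsInducing.subtypeVal.comp IsInducing.subtypeVal
  exact (IsInducing.of_comp hr hs hind).secondCountableTopology

lemma lindelof_YY [WellFoundedLT W] [OrderTopology W]
    (hc : ∀ a : W, (Iio a).Countable) (hu : ¬ (univ : Set W).Countable) (ρ : ℝ → W) :
    LindelofSpace (YY ρ) := by
  classical
  have hc' : ∀ a : W, (Iic a).Countable := by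
    intro a
    rw [← Iio_insert]
    exact (hc a).insert a
  have hne : Nonempty W := by
    by_contra hne
    rw [not_nonempty_iff] at hne
    exact hu (Set.countable_univ)
  refine ⟨isLindelof_of_countable_subcover ?_⟩
  intro ι U hU hcov
  have h1 : ∀ u : YY ρ, ∃ (i : ι) (O : Set (YY ρ)) (g : W), IsOpen O ∧ u ∈ O ∧ O ⊆ U i ∧
      ∀ z z' : YY ρ, (∀ a, a < g → z.1 a = z'.1 a) → z ∈ O → z' ∈ O := by
    intro u
    obtain ⟨i, hi⟩ := mem_iUnion.mp (hcov (mem_univ u))
    obtain ⟨O', hO', hO2⟩ := isOpen_induced_iff.mp (hU i)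
    have hu' : u.1 ∈ O' := by
      have : u ∈ Subtype.val ⁻¹' O' := by rw [hO2]; exact hi
      exact this
    obtain ⟨I, V, hV, hsub⟩ := isOpen_pi_iff.mp hO' u.1 hu'
    obtain ⟨g, hg⟩ := exists_bound hc hu (A := (I : Set W)) I.countable_toSet
    refine ⟨i, Subtype.val ⁻¹' ((I : Set W).pi V), g, ?_, ?_, ?_, ?_⟩
    · refine IsOpen.preimage continuous_subtype_val ?_
      exact isOpen_set_pi I.finite_toSet (fun a ha => (hV a ha).1)
    · intro a ha
      exact (hV a ha).2
    · rw [← hO2]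
      exact preimage_mono hsub
    · intro z z' hzz hz a ha
      have h := hz a ha
      rw [hzz a (hg a ha)] at h
      exact h
  choose idx O G hO huO hOU hdep using h1
  have h2 : ∀ g : W, ∃ t : Set (YY ρ), t.Countable ∧ Yc ρ g ⊆ ⋃ u ∈ t, O u := by
    intro g
    have hsc := secondCountable_Yc hc' ρ g
    have hL : IsLindelof (Yc ρ g) := by
      rw [isLindelof_iff_lindelofSpace]
      infer_instance
    obtain ⟨t, ht, _, hcov'⟩ := hL.elim_nhds_subcover O (fun x _ => (hO x).mem_nhds (huO x))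
    exact ⟨t, ht, hcov'⟩
  choose T hT1 hT2 using h2
  have h3 : ∀ g : W, ∃ g', g < g' ∧ ∀ g1, g1 ≤ g → ∀ u ∈ T g1, G u < g' := by
    intro g
    obtain ⟨b, hb⟩ := exists_bound hc hu (A := insert g (⋃ g1 ∈ Iic g, G '' T g1)) (by
      refine Set.Countable.insert _ ?_
      exact (hc' g).biUnion (fun g1 _ => (hT1 g1).image G))
    refine ⟨b, hb g (mem_insert _ _), ?_⟩
    intro g1 hg1 u hu1
    apply hb
    refine mem_insert_of_mem _ ?_
    exact mem_biUnion (x := g1) hg1 (mem_image_of_mem G hu1)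
  choose B hB1 hB2 using h3
  let γ : ℕ → W := fun n => Nat.rec (Classical.choice hne) (fun _ x => B x) n
  have hγs : ∀ n, γ (n + 1) = B (γ n) := fun n => rfl
  have hmono : StrictMono γ := strictMono_nat_of_lt_succ (fun n => by rw [hγs]; exact hB1 _)
  obtain ⟨d, hd1, hd2⟩ := exists_sup hc hu γ hmono
  have hclos : ∀ g < d, ∀ u ∈ T g, G u < d := by
    intro g hg u hu1
    obtain ⟨n, hn⟩ := hd2 g hg
    exact (hB2 (γ n) g hn u hu1).trans (hd1 (n + 1))
  let t : Set (YY ρ) := ⋃ g ∈ Iic d, T g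
  have ht : t.Countable := (hc' d).biUnion (fun g _ => hT1 g)
  have hcov2 : ∀ y : YY ρ, ∃ u ∈ t, y ∈ O u := by
    intro y
    rcases y.2.2.2.2 d with hfin | hconst
    · have h4 : ∃ n, y.1 (γ n) = y.1 d := by
        by_contra hno
        push Not at hno
        have hlt : ∀ n, y.1 (γ n) < y.1 d := fun n =>
          lt_of_le_of_ne (y.2.1 (hd1 n).le) (hno n)
        let A : Set ℝ := {v ∈ y.1 '' Iic d | v < y.1 d}
        have hA : A.Finite := hfin.subset (sep_subset _ _)
        have hAne : A.Nonempty := ⟨y.1 (γ 0), ⟨γ 0, (hd1 0).le, rfl⟩, hlt 0⟩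
        obtain ⟨r, hr, hrmax⟩ := hA.exists_maximalFor id A hAne
        have hev := y.2.2.2.1 d r hr.2
        have htend : Tendsto γ atTop (𝓝 d) := by
          rw [tendsto_order]
          constructor
          · intro a ha
            obtain ⟨n, hn⟩ := hd2 a ha
            filter_upwards [eventually_gt_atTop n] with m hm
            exact hn.trans_lt (hmono hm)
          · intro a ha
            exact Eventually.of_forall (fun n => (hd1 n).trans ha)
        obtain ⟨n, hn⟩ := (htend.eventually hev).exists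
        have h5 : y.1 (γ n) ∈ A := ⟨⟨γ n, (hd1 n).le, rfl⟩, hlt n⟩
        have h6 := hrmax h5 hn.le
        exact absurd hn (not_lt.mpr h6)
      obtain ⟨n, hn⟩ := h4
      have hfin2 : (y.1 '' Iic (γ n)).Finite :=
        hfin.subset (image_mono (Iic_subset_Iic.mpr (hd1 n).le))
      let y' : YY ρ := ⟨fun a => y.1 (min a (γ n)), trunc_good y.2 (γ n) hfin2⟩
      have hy' : y' ∈ Yc ρ (γ n) := by
        intro a ha
        change y.1 (min a (γ n)) = y.1 (min (γ n) (γ n))
        rw [min_eq_right ha, min_self]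
      obtain ⟨u, hu1, hu2⟩ := mem_iUnion₂.mp (hT2 (γ n) hy')
      refine ⟨u, mem_biUnion (hd1 n).le hu1, ?_⟩
      refine hdep u y' y ?_ hu2
      intro a ha
      have ha2 : a < d := ha.trans (hclos (γ n) (hd1 n) u hu1)
      change y.1 (min a (γ n)) = y.1 a
      rcases le_total a (γ n) with h | h
      · rw [min_eq_left h]
      · rw [min_eq_right h]
        apply le_antisymm
        · exact y.2.1 h
        · rw [hn]
          exact y.2.1 ha2.le
    · have hy : y ∈ Yc ρ d := hconst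
      obtain ⟨u, hu1, hu2⟩ := mem_iUnion₂.mp (hT2 d hy)
      exact ⟨u, mem_biUnion (x := d) (mem_Iic.mpr le_rfl) hu1, hu2⟩
  refine ⟨idx '' t, ht.image idx, ?_⟩
  intro y _
  obtain ⟨u, hut, hyu⟩ := hcov2 y
  exact mem_biUnion (mem_image_of_mem idx hut) (hOU u hyu)

end space

section cond

set_option linter.unusedSectionVars false

variable {W : Type} [LinearOrder W] [TopologicalSpace W]

/-- Step functions with finitely many values which are eventually in `C`. -/
structure Cond {ρ : ℝ → W} (C : Set (W × YY ρ)) where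
  u : YY ρ
  g : W
  fin : (range u.1).Finite
  const : ∀ a, g ≤ a → u.1 a = u.1 g
  zp : Zp C u

variable {ρ : ℝ → W} {C : Set (W × YY ρ)}

/-- The final value. -/
def Cond.val (p : Cond C) : ℝ := p.u.1 p.g

/-- Extension. -/
def Cond.ext (p q : Cond C) : Prop := p.g ≤ q.g ∧ ∀ a, a ≤ p.g → q.u.1 a = p.u.1 a

/-- The supremum of the final values of extensions. -/
noncomputable def Cond.top (p : Cond C) : ℝ := sSup {v | ∃ q : Cond C, p.ext q ∧ v = q.val}

lemma Cond.ext_refl (p : Cond C) : p.ext p := ⟨le_rfl, fun _ _ => rfl⟩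

lemma Cond.ext_trans {p q r : Cond C} (h1 : p.ext q) (h2 : q.ext r) : p.ext r :=
  ⟨h1.1.trans h2.1, fun a ha => (h2.2 a (ha.trans h1.1)).trans (h1.2 a ha)⟩

lemma Cond.val_le {p q : Cond C} (h : p.ext q) : p.val ≤ q.val := by
  have h1 := h.2 p.g le_rfl
  have h2 : q.u.1 p.g ≤ q.u.1 q.g := q.u.2.1 h.1
  unfold Cond.val
  linarith

variable [WellFoundedLT W]

lemma Cond.val_lt_one (hc : ∀ a : W, (Iio a).Countable) (hu : ¬ (univ : Set W).Countable)
    (hC2 : ∀ a (u : YY ρ), 1 ≤ u.1 a → (a, u) ∉ C) (p : Cond C) : p.val < 1 := by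
  obtain ⟨ε, hε, g, hg⟩ := p.zp
  obtain ⟨a, ha⟩ := exists_gt' hc hu (max g p.g)
  have h1 : (a, p.u) ∈ C := hg a ((le_max_left _ _).trans_lt ha) p.u (fun b => by simpa using hε)
  have h2 : p.u.1 a = p.u.1 p.g := p.const a ((le_max_right _ _).trans ha.le)
  by_contra hno
  push Not at hno
  unfold Cond.val at hno
  rw [← h2] at hno
  exact hC2 a p.u hno h1

lemma Cond.bdd (hc : ∀ a : W, (Iio a).Countable) (hu : ¬ (univ : Set W).Countable)
    (hC2 : ∀ a (u : YY ρ), 1 ≤ u.1 a → (a, u) ∉ C) (p : Cond C) :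
    BddAbove {v | ∃ q : Cond C, p.ext q ∧ v = q.val} := by
  refine ⟨1, ?_⟩
  rintro v ⟨q, _, rfl⟩
  exact (Cond.val_lt_one hc hu hC2 q).le

lemma Cond.val_le_top (hc : ∀ a : W, (Iio a).Countable) (hu : ¬ (univ : Set W).Countable)
    (hC2 : ∀ a (u : YY ρ), 1 ≤ u.1 a → (a, u) ∉ C) {p q : Cond C} (h : p.ext q) :
    q.val ≤ p.top :=
  le_csSup (Cond.bdd hc hu hC2 p) ⟨q, h, rfl⟩

lemma Cond.top_anti (hc : ∀ a : W, (Iio a).Countable) (hu : ¬ (univ : Set W).Countable)
    (hC2 : ∀ a (u : YY ρ), 1 ≤ u.1 a → (a, u) ∉ C) {p q : Cond C} (h : p.ext q) :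
    q.top ≤ p.top := by
  refine csSup_le_csSup (Cond.bdd hc hu hC2 p) ⟨q.val, q, q.ext_refl, rfl⟩ ?_
  rintro v ⟨r, hr, rfl⟩
  exact ⟨r, Cond.ext_trans h hr, rfl⟩

lemma Cond.exists_near_top {p : Cond C} {ε : ℝ} (hε : 0 < ε) :
    ∃ q : Cond C, p.ext q ∧ p.top - ε < q.val := by
  have hne : {v | ∃ q : Cond C, p.ext q ∧ v = q.val}.Nonempty := ⟨p.val, p, p.ext_refl, rfl⟩
  obtain ⟨v, ⟨q, hq, rfl⟩, hv⟩ := exists_lt_of_lt_csSup hne
    (show p.top - ε < sSup {v | ∃ q : Cond C, p.ext q ∧ v = q.val} by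
      change p.top - ε < p.top
      linarith)
  exact ⟨q, hq, hv⟩

/-- Enlarge the last coordinate. -/
lemma Cond.exists_bump (q : Cond C) (g : W) (hg : q.g ≤ g) :
    ∃ r : Cond C, q.ext r ∧ r.g = g ∧ r.val = q.val := by
  refine ⟨⟨q.u, g, q.fin, ?_, q.zp⟩, ⟨hg, fun _ _ => rfl⟩, rfl, q.const g hg⟩
  intro a ha
  rw [q.const a (hg.trans ha), q.const g hg]

lemma no_seq [OrderTopology W] (hc : ∀ a : W, (Iio a).Countable)
    (hu : ¬ (univ : Set W).Countable) (hC : IsClopen C)
    (hC2 : ∀ a (u : YY ρ), 1 ≤ u.1 a → (a, u) ∉ C)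
    (hρ : ∀ a b : ℝ, a < b → ∃ y ∈ Ioo a b, ∀ α, ρ y ≤ α)
    (p : ℕ → Cond C) (hp1 : ∀ n, (p n).ext (p (n + 1))) (hp2 : ∀ n, (p n).g < (p (n + 1)).g)
    (t : ℝ) (ht1 : ∀ n, (p n).val ≤ t) (ht2 : ∀ n, t ≤ (p n).top)
    (hdiam : ∀ ε > 0, ∃ n, (p n).top - (p n).val < ε) (hrt : ∃ m, ρ t ≤ (p m).g) : False := by
  classical
  have hmono : StrictMono (fun n => (p n).g) := strictMono_nat_of_lt_succ hp2
  have hext : ∀ m n, m ≤ n → (p m).ext (p n) := by
    intro m n hmn
    induction n, hmn using Nat.le_induction with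
    | base => exact (p m).ext_refl
    | succ n _ ih => exact Cond.ext_trans ih (hp1 n)
  obtain ⟨β, hβ1, hβ2⟩ := exists_sup hc hu _ hmono
  let w : W → ℝ := fun a => if h : ∃ n, a ≤ (p n).g then (p (Nat.find h)).u.1 a else t
  have hw1 : ∀ n a, a ≤ (p n).g → w a = (p n).u.1 a := by
    intro n a ha
    have h : ∃ n, a ≤ (p n).g := ⟨n, ha⟩
    have h1 : w a = (p (Nat.find h)).u.1 a := by
      simp only [w]
      rw [dif_pos h]
    rw [h1]
    exact ((hext _ _ (Nat.find_min' h ha)).2 a (Nat.find_spec h)).symm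
  have hw2 : ∀ a, β ≤ a → w a = t := by
    intro a ha
    have h : ¬ ∃ n, a ≤ (p n).g := by
      rintro ⟨n, hn⟩
      exact absurd (hn.trans_lt (hβ1 n)) (not_lt.mpr ha)
    simp only [w]
    rw [dif_neg h]
  have hwm : Monotone w := by
    intro a b hab
    rcases lt_or_ge b β with hb | hb
    · obtain ⟨n, hn⟩ := hβ2 b hb
      rw [hw1 n a (hab.trans hn), hw1 n b hn]
      exact (p n).u.2.1 hab
    · rw [hw2 b hb]
      rcases lt_or_ge a β with ha | ha
      · obtain ⟨n, hn⟩ := hβ2 a ha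
        rw [hw1 n a hn]
        exact ((p n).u.2.1 hn).trans (ht1 n)
      · rw [hw2 a ha]
  have hwgood : Good ρ w := by
    refine ⟨hwm, ?_, ?_, ?_⟩
    · intro a
      rcases lt_or_ge a β with ha | ha
      · obtain ⟨n, hn⟩ := hβ2 a ha
        rw [hw1 n a hn]
        exact (p n).u.2.2.1 a
      · rw [hw2 a ha]
        obtain ⟨m, hm⟩ := hrt
        exact hm.trans ((hβ1 m).le.trans ha)
    · intro a r hr
      rcases lt_or_ge a β with ha | ha
      · obtain ⟨n, hn⟩ := hβ2 a ha
        rw [hw1 n a hn] at hr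
        have h1 := (p n).u.2.2.2.1 a r hr
        filter_upwards [h1, (isClopen_Iic hc hu (p n).g).isOpen.mem_nhds hn] with c hc1 hc2
        rw [hw1 n c hc2]
        exact hc1
      · rw [hw2 a ha] at hr
        obtain ⟨n, hn⟩ := hdiam (t - r) (by linarith)
        have h2 := ht2 n
        have h3 : r < (p n).val := by linarith
        have h4 : (p n).g < a := (hβ1 n).trans_le ha
        filter_upwards [isOpen_Ioi.mem_nhds h4] with c hc1
        have h5 : w (p n).g ≤ w c := hwm (le_of_lt hc1)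
        rw [hw1 n _ le_rfl] at h5
        exact h3.trans_le h5
    · intro g
      rcases lt_or_ge g β with hg | hg
      · left
        obtain ⟨n, hn⟩ := hβ2 g hg
        refine (p n).fin.subset ?_
        rintro _ ⟨a, ha, rfl⟩
        rw [hw1 n a (le_trans ha hn)]
        exact mem_range_self a
      · right
        intro a ha
        rw [hw2 a (hg.trans ha), hw2 g hg]
  have hval : ∀ n, w (p n).g = (p n).val := fun n => hw1 n _ le_rfl
  rcases zp_or hc hu hC ⟨w, hwgood⟩ with hz | hz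
  · obtain ⟨ε, hε, g, hg⟩ := hz
    obtain ⟨n, hn⟩ := hdiam (ε / 4) (by linarith)
    obtain ⟨y, hy1, hy2⟩ := hρ ((p n).val + ε / 4) ((p n).val + ε / 3) (by linarith)
    obtain ⟨g', hg'⟩ := exists_gt' hc hu (p n).g
    let v : W → ℝ := fun a => if a ≤ (p n).g then (p n).u.1 a else y
    have hv1 : ∀ a, a ≤ (p n).g → v a = (p n).u.1 a := fun a ha => if_pos ha
    have hv2 : ∀ a, (p n).g < a → v a = y := fun a ha => if_neg (not_le.mpr ha)
    have hyv : (p n).val + ε / 4 < y := hy1.1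
    have hyv' : y < (p n).val + ε / 3 := hy1.2
    have hvfin : (range v).Finite := by
      refine ((p n).fin.insert y).subset ?_
      rintro _ ⟨a, rfl⟩
      rcases le_or_gt a (p n).g with ha | ha
      · rw [hv1 a ha]
        exact mem_insert_of_mem _ (mem_range_self a)
      · rw [hv2 a ha]
        exact mem_insert _ _
    have hvgood : Good ρ v := by
      refine ⟨?_, ?_, ?_, ?_⟩
      · intro a b hab
        rcases le_or_gt b (p n).g with hb | hb
        · rw [hv1 a (hab.trans hb), hv1 b hb]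
          exact (p n).u.2.1 hab
        · rw [hv2 b hb]
          rcases le_or_gt a (p n).g with ha | ha
          · rw [hv1 a ha]
            have : (p n).u.1 a ≤ (p n).val := (p n).u.2.1 ha
            linarith
          · rw [hv2 a ha]
      · intro a
        rcases le_or_gt a (p n).g with ha | ha
        · rw [hv1 a ha]
          exact (p n).u.2.2.1 a
        · rw [hv2 a ha]
          exact hy2 a
      · intro a r hr
        rcases le_or_gt a (p n).g with ha | ha
        · rw [hv1 a ha] at hr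
          have h1 := (p n).u.2.2.2.1 a r hr
          filter_upwards [h1, (isClopen_Iic hc hu (p n).g).isOpen.mem_nhds ha] with c hc1 hc2
          rw [hv1 c hc2]
          exact hc1
        · rw [hv2 a ha] at hr
          filter_upwards [isOpen_Ioi.mem_nhds ha] with c hc1
          rw [hv2 c hc1]
          exact hr
      · intro g
        left
        exact hvfin.subset (image_subset_range _ _)
    have hvw : ∀ a, |v a - w a| < ε / 2 := by
      intro a
      rcases le_or_gt a (p n).g with ha | ha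
      · rw [hv1 a ha, hw1 n a ha]
        simpa using hε
      · rw [hv2 a ha]
        have h1 : (p n).val ≤ w a := by
          rw [← hval n]
          exact hwm ha.le
        have h2 : w a ≤ t := by
          rcases lt_or_ge a β with hab | hab
          · rw [← hw2 β le_rfl]
            exact hwm hab.le
          · rw [hw2 a hab]
        have h3 := ht2 n
        rw [abs_lt]
        constructor <;> linarith
    have hzp : Zp C ⟨v, hvgood⟩ := by
      refine ⟨ε / 2, by linarith, g, ?_⟩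
      intro a ha z hz
      apply hg a ha z
      intro b
      have h1 := hz b
      have h2 := hvw b
      calc |z.1 b - w b| = |(z.1 b - v b) + (v b - w b)| := by ring_nf
        _ ≤ |z.1 b - v b| + |v b - w b| := abs_add_le _ _
        _ < ε := by linarith
    let q : Cond C := ⟨⟨v, hvgood⟩, g', hvfin, by
      intro a ha
      change v a = v g'
      rw [hv2 a (hg'.trans_le ha), hv2 g' hg'], hzp⟩
    have hq : (p n).ext q := ⟨hg'.le, fun a ha => hv1 a ha⟩
    have h1 := Cond.val_le_top hc hu hC2 hq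
    have h2 : q.val = y := hv2 g' hg'
    linarith
  · obtain ⟨ε, hε, g, hg⟩ := hz
    obtain ⟨n, hn⟩ := hdiam ε hε
    obtain ⟨ε', hε', g', hg'⟩ := (p n).zp
    obtain ⟨a, ha⟩ := exists_gt' hc hu (max g g')
    have h1 : (a, (p n).u) ∈ C :=
      hg' a ((le_max_right _ _).trans_lt ha) (p n).u (fun b => by simpa using hε')
    have h2 : (a, (p n).u) ∈ Cᶜ := by
      refine hg a ((le_max_left _ _).trans_lt ha) (p n).u ?_
      intro b
      change |(p n).u.1 b - w b| < ε
      rcases le_or_gt b (p n).g with hb | hb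
      · rw [hw1 n b hb]
        simpa using hε
      · have h3 : (p n).u.1 b = (p n).val := (p n).const b hb.le
        have h4 : (p n).val ≤ w b := by
          rw [← hval n]
          exact hwm hb.le
        have h5 : w b ≤ t := by
          rcases lt_or_ge b β with hab | hab
          · rw [← hw2 β le_rfl]
            exact hwm hab.le
          · rw [hw2 b hab]
        have h6 := ht2 n
        rw [h3, abs_lt]
        constructor <;> linarith
    exact h2 h1

theorem no_clopen [OrderTopology W] (hc : ∀ a : W, (Iio a).Countable)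
    (hu : ¬ (univ : Set W).Countable) (hC : IsClopen C)
    (hC1 : ∀ a (u : YY ρ), u.1 a ≤ 0 → (a, u) ∈ C)
    (hC2 : ∀ a (u : YY ρ), 1 ≤ u.1 a → (a, u) ∉ C)
    (hρ : ∀ P : Set ℝ, IsClosed P → ¬ P.Countable → ∀ α, ∃ y ∈ P, ρ y = α) : False := by
  classical
  have hne : (univ : Set W).Nonempty := by
    rw [nonempty_iff_ne_empty]
    intro h
    exact hu (h ▸ countable_empty)
  set b0 : W := wellFounded_lt.min univ hne with hb0
  have hb0' : ∀ a : W, b0 ≤ a := fun a => not_lt.mp (wellFounded_lt.not_lt_min univ (mem_univ a))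
  have hIcc : ∀ a b : ℝ, a < b → ¬ (Icc a b).Countable := by
    intro a b hab h
    have h1 := (Cardinal.le_aleph0_iff_set_countable).mpr h
    rw [Cardinal.mk_Icc_real hab] at h1
    exact absurd h1 (not_le.mpr Cardinal.aleph0_lt_continuum)
  have hρ' : ∀ a b : ℝ, a < b → ∃ y ∈ Ioo a b, ∀ α, ρ y ≤ α := by
    intro a b hab
    obtain ⟨y, hy1, hy2⟩ := hρ (Icc ((2 * a + b) / 3) ((a + 2 * b) / 3)) isClosed_Icc
      (hIcc _ _ (by linarith)) b0
    refine ⟨y, ⟨by linarith [hy1.1], by linarith [hy1.2]⟩, ?_⟩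
    intro α
    rw [hy2]
    exact hb0' α
  obtain ⟨c0, hc0, hc0'⟩ := hρ' (-1) 0 (by norm_num)
  have hgood0 : Good ρ (fun _ : W => c0) := by
    refine ⟨monotone_const, fun a => hc0' a, lowerSemicontinuous_const, fun g => Or.inr ?_⟩
    intro a _
    rfl
  have hz0 : Zp C ⟨fun _ => c0, hgood0⟩ := by
    rcases zp_or hc hu hC ⟨fun _ => c0, hgood0⟩ with h | h
    · exact h
    · obtain ⟨ε, hε, g, hg⟩ := h
      obtain ⟨a, ha⟩ := exists_gt' hc hu g
      exact absurd (hC1 a ⟨fun _ => c0, hgood0⟩ hc0.2.le)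
        (hg a ha ⟨fun _ => c0, hgood0⟩ (fun b => by simpa using hε))
  let p0 : Cond C := ⟨⟨fun _ => c0, hgood0⟩, b0, by
    refine (finite_singleton c0).subset ?_
    rintro _ ⟨a, rfl⟩
    rfl, fun _ _ => rfl, hz0⟩
  by_cases hcase : ∃ p : Cond C, ∀ q1 q2 : Cond C, p.ext q1 → p.ext q2 →
      (Icc q1.val q1.top ∩ Icc q2.val q2.top).Nonempty
  · obtain ⟨p, hp⟩ := hcase
    have htop : ∀ q : Cond C, p.ext q → q.top = p.top := by
      intro q hq
      apply le_antisymm (Cond.top_anti hc hu hC2 hq)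
      refine csSup_le ⟨p.val, p, p.ext_refl, rfl⟩ ?_
      rintro v ⟨r, hr, rfl⟩
      obtain ⟨x, hx1, hx2⟩ := hp q r hq hr
      exact hx2.1.trans hx1.2
    obtain ⟨p1, hp1, hp1g, _⟩ := p.exists_bump (max p.g (ρ p.top)) (le_max_left _ _)
    have hstep : ∀ (n : ℕ) (q : {q : Cond C // p.ext q}), ∃ r : {q : Cond C // p.ext q},
        q.1.ext r.1 ∧ q.1.g < r.1.g ∧ p.top - 1 / ((n : ℝ) + 1) < r.1.val := by
      intro n q
      have hpos : (0 : ℝ) < 1 / ((n : ℝ) + 1) := by positivity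
      obtain ⟨r, hr, hr2⟩ := Cond.exists_near_top (p := q.1) hpos
      obtain ⟨g, hg⟩ := exists_gt' hc hu r.g
      obtain ⟨r', hr', hr'g, hr'v⟩ := r.exists_bump g hg.le
      refine ⟨⟨r', Cond.ext_trans q.2 (Cond.ext_trans hr hr')⟩, Cond.ext_trans hr hr', ?_, ?_⟩
      · change q.1.g < r'.g
        rw [hr'g]
        exact hr.1.trans_lt hg
      · change p.top - 1 / ((n : ℝ) + 1) < r'.val
        rw [hr'v, ← htop q.1 q.2]
        exact hr2
    choose nx hnx1 hnx2 hnx3 using hstep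
    let s : ℕ → {q : Cond C // p.ext q} := fun n => Nat.rec ⟨p1, hp1⟩ (fun n q => nx n q) n
    have hs : ∀ n, s (n + 1) = nx n (s n) := fun n => rfl
    refine no_seq hc hu hC hC2 hρ' (fun n => (s n).1) ?_ ?_ p.top ?_ ?_ ?_ ?_
    · intro n
      rw [hs]
      exact hnx1 n (s n)
    · intro n
      rw [hs]
      exact hnx2 n (s n)
    · intro n
      exact Cond.val_le_top hc hu hC2 (s n).2
    · intro n
      exact (htop _ (s n).2).ge
    · intro ε hε
      obtain ⟨n, hn⟩ := exists_nat_one_div_lt hε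
      refine ⟨n + 1, ?_⟩
      have h1 := hnx3 n (s n)
      rw [← hs] at h1
      rw [htop _ (s (n + 1)).2]
      linarith
    · refine ⟨0, ?_⟩
      change ρ p.top ≤ p1.g
      rw [hp1g]
      exact le_max_right _ _
  · push Not at hcase
    have hstep : ∀ (n : ℕ) (p : Cond C), ∃ q : Bool → Cond C,
        (∀ b, p.ext (q b) ∧ p.g < (q b).g ∧ (q b).top - (q b).val < 1 / ((n : ℝ) + 1)) ∧
        Disjoint (Icc (q true).val (q true).top) (Icc (q false).val (q false).top) := by
      intro n p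
      have hpos : (0 : ℝ) < 1 / ((n : ℝ) + 1) := by positivity
      obtain ⟨q1, q2, h1, h2, h3⟩ := hcase p
      have key : ∀ q : Cond C, p.ext q → ∃ r : Cond C, p.ext r ∧ p.g < r.g ∧
          r.top - r.val < 1 / ((n : ℝ) + 1) ∧ Icc r.val r.top ⊆ Icc q.val q.top := by
        intro q hq
        obtain ⟨r, hr, hr2⟩ := Cond.exists_near_top (p := q) hpos
        obtain ⟨g, hg⟩ := exists_gt' hc hu r.g
        obtain ⟨r', hr', hr'g, hr'v⟩ := r.exists_bump g hg.le
        have hqr : q.ext r' := Cond.ext_trans hr hr'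
        refine ⟨r', Cond.ext_trans hq hqr, ?_, ?_, ?_⟩
        · rw [hr'g]
          exact (hq.1.trans hr.1).trans_lt hg
        · have h4 := Cond.top_anti hc hu hC2 hqr
          rw [hr'v]
          linarith
        · exact Icc_subset_Icc (Cond.val_le hqr) (Cond.top_anti hc hu hC2 hqr)
      obtain ⟨r1, k1, k2, k3, k4⟩ := key q1 h1
      obtain ⟨r2, l1, l2, l3, l4⟩ := key q2 h2
      refine ⟨fun b => cond b r1 r2, ?_, ?_⟩
      · intro b
        cases b
        · exact ⟨l1, l2, l3⟩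
        · exact ⟨k1, k2, k3⟩
      · change Disjoint (Icc r1.val r1.top) (Icc r2.val r2.top)
        rw [Set.disjoint_iff_inter_eq_empty]
        exact subset_empty_iff.mp ((inter_subset_inter k4 l4).trans h3.subset)
    choose q hq1 hq2 using hstep
    let node : List Bool → Cond C := fun l => List.rec p0 (fun b l p => q l.length p b) l
    have hnode : ∀ b l, node (b :: l) = q l.length (node l) b := fun b l => rfl
    let A : List Bool → Set ℝ := fun l => Icc (node l).val (node l).top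
    have hAne : ∀ l, (A l).Nonempty := by
      intro l
      exact ⟨(node l).val, le_rfl, Cond.val_le_top hc hu hC2 (node l).ext_refl⟩
    have hAanti : CantorScheme.ClosureAntitone A := by
      apply CantorScheme.Antitone.closureAntitone
      · intro l b
        change Icc (node (b :: l)).val (node (b :: l)).top ⊆ Icc (node l).val (node l).top
        have h := (hq1 l.length (node l) b).1
        rw [← hnode] at h
        exact Icc_subset_Icc (Cond.val_le h) (Cond.top_anti hc hu hC2 h)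
      · intro l
        exact isClosed_Icc
    have hAdisj : CantorScheme.Disjoint A := by
      intro l b b' hbb
      change Disjoint (Icc (node (b :: l)).val (node (b :: l)).top)
        (Icc (node (b' :: l)).val (node (b' :: l)).top)
      have h := hq2 l.length (node l)
      rw [hnode, hnode]
      cases b <;> cases b'
      · exact absurd rfl hbb
      · exact h.symm
      · exact h
      · exact absurd rfl hbb
    have hAdiam : CantorScheme.VanishingDiam A := by
      intro x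
      rw [← tendsto_add_atTop_iff_nat 1]
      have h1 : Tendsto (fun n : ℕ => ENNReal.ofReal (1 / ((n : ℝ) + 1))) atTop (𝓝 0) := by
        have := ENNReal.tendsto_ofReal (tendsto_one_div_add_atTop_nhds_zero_nat (𝕜 := ℝ))
        simpa using this
      refine tendsto_of_tendsto_of_tendsto_of_le_of_le tendsto_const_nhds h1
        (fun n => zero_le) ?_
      intro n
      change Metric.ediam (Icc (node (PiNat.res x (n + 1))).val (node (PiNat.res x (n + 1))).top) ≤ _
      rw [Real.ediam_Icc]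
      apply ENNReal.ofReal_le_ofReal
      have h := (hq1 (PiNat.res x n).length (node (PiNat.res x n)) (x n)).2.2
      rw [← hnode, PiNat.res_length] at h
      exact h.le
    have hdom := hAanti.map_of_vanishingDiam hAdiam hAne
    have hmemdom : ∀ x : ℕ → Bool, x ∈ (CantorScheme.inducedMap A).1 := by
      intro x
      rw [hdom]
      trivial
    let f : (ℕ → Bool) → ℝ := fun x => (CantorScheme.inducedMap A).2 ⟨x, hmemdom x⟩
    have hfinj : Function.Injective f := by
      intro x y hxy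
      have := hAdisj.map_injective hxy
      exact congrArg Subtype.val this
    have hfcont : Continuous f :=
      hAdiam.map_continuous.comp (Continuous.subtype_mk continuous_id hmemdom)
    have hfmem : ∀ x n, f x ∈ A (PiNat.res x n) := fun x n =>
      CantorScheme.map_mem (A := A) ⟨x, hmemdom x⟩ n
    have hclosed : IsClosed (range f) := (isCompact_range hfcont).isClosed
    have h3 : Cardinal.mk (ℕ → Bool) = Cardinal.continuum := by simp
    have hunc : ¬ (range f).Countable := by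
      intro h
      have h1 : Countable (ℕ → Bool) := by
        have : Countable (range f) := h.to_subtype
        exact Function.Injective.countable (f := fun x => (⟨f x, mem_range_self x⟩ : range f))
          (fun a b hab => hfinj (congrArg Subtype.val hab))
      have h2 := Cardinal.mk_le_aleph0_iff.mpr h1
      rw [h3] at h2
      exact absurd h2 (not_le.mpr Cardinal.aleph0_lt_continuum)
    obtain ⟨t, ⟨x, rfl⟩, ht⟩ := hρ _ hclosed hunc b0
    refine no_seq hc hu hC hC2 hρ' (fun n => node (PiNat.res x n)) ?_ ?_ (f x) ?_ ?_ ?_ ?_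
    · intro n
      have h := (hq1 (PiNat.res x n).length (node (PiNat.res x n)) (x n)).1
      rw [← hnode] at h
      exact h
    · intro n
      have h := (hq1 (PiNat.res x n).length (node (PiNat.res x n)) (x n)).2.1
      rw [← hnode] at h
      exact h
    · intro n
      exact (hfmem x n).1
    · intro n
      exact (hfmem x n).2
    · intro ε hε
      obtain ⟨n, hn⟩ := exists_nat_one_div_lt hε
      refine ⟨n + 1, ?_⟩
      have h := (hq1 (PiNat.res x n).length (node (PiNat.res x n)) (x n)).2.2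
      rw [← hnode, PiNat.res_length] at h
      exact h.trans hn
    · refine ⟨0, ?_⟩
      rw [ht]
      exact hb0' _

end cond

section omega

variable {W : Type} [LinearOrder W] [WellFoundedLT W] [TopologicalSpace W] [OrderTopology W]

lemma clopen_nhd (hc : ∀ a : W, (Iio a).Countable) (hu : ¬ (univ : Set W).Countable)
    (x : W) (O : Set W) (hO : IsOpen O) (hx : x ∈ O) :
    ∃ C : Set W, IsClopen C ∧ x ∈ C ∧ C ⊆ O := by
  by_cases h : ∃ l, l < x
  · obtain ⟨l, hl, hsub⟩ := exists_Ioc_subset_of_mem_nhds (hO.mem_nhds hx) h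
    refine ⟨Ioc l x, ?_, ⟨hl, le_rfl⟩, hsub⟩
    have : Ioc l x = (Iic l)ᶜ ∩ Iic x := by
      ext y
      simp
    rw [this]
    exact (isClopen_Iic hc hu l).compl.inter (isClopen_Iic hc hu x)
  · push Not at h
    refine ⟨Iic x, isClopen_Iic hc hu x, self_mem_Iic, ?_⟩
    intro y hy
    rwa [le_antisymm hy (h y)]

lemma tend_sup {γ : ℕ → W} {d : W} (hmono : StrictMono γ) (hd1 : ∀ n, γ n < d)
    (hd2 : ∀ a < d, ∃ n, a ≤ γ n) {B : ℕ → W} (hB1 : ∀ n, γ n < B n)
    (hB2 : ∀ n, B n < γ (n + 1)) : Tendsto B atTop (𝓝 d) := by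
  rw [tendsto_order]
  constructor
  · intro a ha
    obtain ⟨n, hn⟩ := hd2 a ha
    filter_upwards [eventually_ge_atTop n] with m hm
    exact (hn.trans (hmono.monotone hm)).trans_lt (hB1 m)
  · intro a ha
    exact Eventually.of_forall (fun n => ((hB2 n).trans (hd1 (n + 1))).trans ha)

lemma exists_tail (hc : ∀ a : W, (Iio a).Countable) (hu : ¬ (univ : Set W).Countable)
    (𝒰 : Set (Set W)) (hfin : 𝒰.Finite) (hop : ∀ U ∈ 𝒰, IsOpen U) (hcov : ⋃₀ 𝒰 = univ) :
    ∃ U ∈ 𝒰, ∃ g : W, Ioi g ⊆ U := by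
  classical
  by_contra hcon
  push Not at hcon
  have hne : Nonempty W := by
    by_contra hne
    rw [not_nonempty_iff] at hne
    exact hu (Set.countable_univ)
  have h1 : ∀ (g : W) (U : Set W), ∃ x, U ∈ 𝒰 → (g < x ∧ x ∉ U) := by
    intro g U
    by_cases hU : U ∈ 𝒰
    · obtain ⟨x, hx1, hx2⟩ := not_subset.mp (hcon U hU g)
      exact ⟨x, fun _ => ⟨hx1, hx2⟩⟩
    · exact ⟨g, fun h => absurd h hU⟩
  choose F hF using h1
  have h2 : ∀ g : W, ∃ g', g < g' ∧ ∀ U ∈ 𝒰, F g U < g' := by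
    intro g
    obtain ⟨b, hb⟩ := exists_bound hc hu (A := insert g (F g '' 𝒰))
      ((hfin.image _).countable.insert _)
    exact ⟨b, hb g (mem_insert _ _), fun U hU => hb _ (mem_insert_of_mem _ (mem_image_of_mem _ hU))⟩
  choose B hB1 hB2 using h2
  let γ : ℕ → W := fun n => Nat.rec (Classical.choice hne) (fun _ x => B x) n
  have hγs : ∀ n, γ (n + 1) = B (γ n) := fun n => rfl
  have hmono : StrictMono γ := strictMono_nat_of_lt_succ (fun n => by rw [hγs]; exact hB1 _)
  obtain ⟨d, hd1, hd2⟩ := exists_sup hc hu γ hmono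
  have hd : d ∈ ⋃₀ 𝒰 := by rw [hcov]; trivial
  obtain ⟨U, hU, hdU⟩ := hd
  have ht : Tendsto (fun n => F (γ n) U) atTop (𝓝 d) :=
    tend_sup hmono hd1 hd2 (fun n => (hF (γ n) U hU).1) (fun n => by
      rw [hγs]
      exact hB2 _ U hU)
  obtain ⟨n, hn⟩ := (ht.eventually ((hop U hU).mem_nhds hdU)).exists
  exact (hF (γ n) U hU).2 hn

lemma dim_W (hc : ∀ a : W, (Iio a).Countable) (hu : ¬ (univ : Set W).Countable) :
    DimLE W 0 := by
  classical
  apply dimLE_zero_of_clopen
  intro 𝒰 hfin hop hcov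
  obtain ⟨U0, hU0, g, hg⟩ := exists_tail hc hu 𝒰 hfin hop hcov
  have h1 : ∀ x : W, ∃ C : Set W, IsClopen C ∧ x ∈ C ∧ ∃ U ∈ 𝒰, C ⊆ U := by
    intro x
    have hx : x ∈ ⋃₀ 𝒰 := by rw [hcov]; trivial
    obtain ⟨U, hU, hxU⟩ := hx
    obtain ⟨C, hC, hxC, hCU⟩ := clopen_nhd hc hu x U (hop U hU) hxU
    exact ⟨C, hC, hxC, U, hU, hCU⟩
  choose C hC hxC hCU using h1
  have hcount : (insert (Ioi g) (C '' Iic g)).Countable := by
    refine Set.Countable.insert _ (Set.Countable.image ?_ _)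
    rw [← Iio_insert]
    exact (hc g).insert g
  obtain ⟨f, hf⟩ := hcount.exists_eq_range (insert_nonempty _ _)
  have hfm : ∀ n, f n ∈ insert (Ioi g) (C '' Iic g) := fun n => by
    rw [hf]
    exact mem_range_self n
  refine ⟨f, ?_, ?_, ?_⟩
  · intro n
    rcases hfm n with h | ⟨x, _, h⟩
    · rw [h]
      have : Ioi g = (Iic g)ᶜ := by
        ext y
        simp
      rw [this]
      exact (isClopen_Iic hc hu g).compl
    · rw [← h]
      exact hC x
  · apply eq_univ_of_forall
    intro x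
    have hx : ∃ s ∈ insert (Ioi g) (C '' Iic g), x ∈ s := by
      rcases le_or_gt x g with hxg | hxg
      · exact ⟨C x, mem_insert_of_mem _ (mem_image_of_mem C hxg), hxC x⟩
      · exact ⟨Ioi g, mem_insert _ _, hxg⟩
    obtain ⟨s, hs, hxs⟩ := hx
    rw [hf] at hs
    obtain ⟨n, rfl⟩ := hs
    exact mem_iUnion.mpr ⟨n, hxs⟩
  · intro n
    rcases hfm n with h | ⟨x, _, h⟩
    · exact ⟨U0, hU0, h ▸ hg⟩
    · obtain ⟨U, hU, hsub⟩ := hCU x
      exact ⟨U, hU, h ▸ hsub⟩

lemma cc_W (hc : ∀ a : W, (Iio a).Countable) (hu : ¬ (univ : Set W).Countable) :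
    CountablyCompactSpace W := by
  refine ⟨isCountablyCompact_iff_seq_clusterPt.mpr ?_⟩
  intro x _
  have hne : {a : W | ∃ᶠ n in atTop, x n ≤ a}.Nonempty := by
    obtain ⟨b, hb⟩ := exists_bound hc hu (countable_range x)
    exact ⟨b, Eventually.frequently (Eventually.of_forall
      (fun n => (hb _ (mem_range_self n)).le))⟩
  refine ⟨wellFounded_lt.min _ hne, mem_univ _, ?_⟩
  have h1 : ∃ᶠ n in atTop, x n ≤ wellFounded_lt.min _ hne :=
    wellFounded_lt.min_mem {a : W | ∃ᶠ n in atTop, x n ≤ a} hne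
  have h2 : ∀ l < wellFounded_lt.min _ hne, ¬ ∃ᶠ n in atTop, x n ≤ l := by
    intro l hl hl2
    exact wellFounded_lt.not_lt_min {a : W | ∃ᶠ n in atTop, x n ≤ a} (x := l) hl2 hl
  rw [mapClusterPt_iff_frequently]
  intro s hs
  by_cases h : ∃ l, l < wellFounded_lt.min _ hne
  · obtain ⟨l, hl, hsub⟩ := exists_Ioc_subset_of_mem_nhds hs h
    have h3 : ∀ᶠ n in atTop, l < x n := by
      have := h2 l hl
      rw [not_frequently] at this
      exact this.mono (fun n hn => not_le.mp hn)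
    exact (h1.and_eventually h3).mono (fun n hn => hsub ⟨hn.2, hn.1⟩)
  · push Not at h
    refine h1.mono (fun n hn => ?_)
    rw [le_antisymm hn (h _)]
    exact mem_of_mem_nhds hs

end omega

lemma not_dim_prod {W : Type} [LinearOrder W] [WellFoundedLT W] [TopologicalSpace W]
    [OrderTopology W] (hc : ∀ a : W, (Iio a).Countable) (hu : ¬ (univ : Set W).Countable)
    {ρ : ℝ → W}
    (hρ : ∀ P : Set ℝ, IsClosed P → ¬ P.Countable → ∀ α, ∃ y ∈ P, ρ y = α) :
    ¬ DimLE (W × YY ρ) 0 := by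
  classical
  intro h
  have he := eval_cont hc hu ρ
  set e : W × YY ρ → ℝ := fun p => p.2.1 p.1 with hedef
  let U1 : Set (W × YY ρ) := {p | e p < 1}
  let U2 : Set (W × YY ρ) := {p | 0 < e p}
  have hU1 : IsCozero U1 := by
    refine ⟨fun p => max (1 - e p) 0, (continuous_const.sub he).max continuous_const, ?_⟩
    ext p
    change e p < 1 ↔ max (1 - e p) 0 ≠ 0
    constructor
    · intro hp
      exact ne_of_gt (lt_max_of_lt_left (by linarith))
    · intro hp
      by_contra hno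
      push Not at hno
      exact hp (max_eq_right (by linarith))
  have hU2 : IsCozero U2 := by
    refine ⟨fun p => max (e p) 0, he.max continuous_const, ?_⟩
    ext p
    change 0 < e p ↔ max (e p) 0 ≠ 0
    constructor
    · intro hp
      exact ne_of_gt (lt_max_of_lt_left hp)
    · intro hp
      by_contra hno
      push Not at hno
      exact hp (max_eq_right hno)
  obtain ⟨𝒱, k1, k2, k3, k4, k5⟩ := h {U1, U2} (by simp) (by
    rintro U (rfl | rfl)
    · exact hU1
    · exact hU2) (by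
      apply eq_univ_of_forall
      intro p
      rcases lt_or_ge (e p) 1 with hp | hp
      · exact ⟨U1, by simp, hp⟩
      · exact ⟨U2, by simp, show 0 < e p by linarith⟩)
  have huniq : ∀ p, ∀ V ∈ 𝒱, ∀ V' ∈ 𝒱, p ∈ V → p ∈ V' → V = V' := by
    intro p V hV V' hV' hp hp'
    have h0 := k5 p
    have hle : {V ∈ 𝒱 | p ∈ V}.ncard ≤ 1 := by
      have : ({V ∈ 𝒱 | p ∈ V}.ncard : ℤ) ≤ 1 := by linarith
      exact_mod_cast this
    rw [Set.ncard_le_one (k1.subset (sep_subset _ _))] at hle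
    exact hle V ⟨hV, hp⟩ V' ⟨hV', hp'⟩
  let C : Set (W × YY ρ) := ⋃₀ {V ∈ 𝒱 | V ⊆ U1}
  have hCopen : IsOpen C := isOpen_sUnion (fun V hV => (k2 V hV.1).isOpen)
  have hCc : Cᶜ = ⋃₀ {V ∈ 𝒱 | ¬ V ⊆ U1} := by
    ext p
    constructor
    · intro hp
      have hpu : p ∈ ⋃₀ 𝒱 := by rw [k3]; trivial
      obtain ⟨V, hV, hpV⟩ := hpu
      refine ⟨V, ⟨hV, ?_⟩, hpV⟩
      intro hsub
      exact hp ⟨V, ⟨hV, hsub⟩, hpV⟩
    · rintro ⟨V, ⟨hV, hn⟩, hpV⟩ ⟨V', ⟨hV', hn'⟩, hpV'⟩
      have := huniq p V hV V' hV' hpV hpV'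
      exact hn (this ▸ hn')
  have hCclopen : IsClopen C := by
    refine ⟨?_, hCopen⟩
    rw [← isOpen_compl_iff, hCc]
    exact isOpen_sUnion (fun V hV => (k2 V hV.1).isOpen)
  refine no_clopen hc hu hCclopen ?_ ?_ hρ
  · intro a u hau
    by_contra hno
    have hmem : (a, u) ∈ Cᶜ := hno
    rw [hCc] at hmem
    obtain ⟨V, ⟨hV, hn⟩, hpV⟩ := hmem
    obtain ⟨U, hU, hVU⟩ := k4 V hV
    rcases hU with rfl | rfl
    · exact hn hVU
    · have h1 : 0 < u.1 a := hVU hpV
      linarith
  · rintro a u hau ⟨V, ⟨hV, hsub⟩, hpV⟩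
    have h1 : u.1 a < 1 := hsub hpV
    linarith

/-- There are nonempty Tychonoff spaces `X` (countably compact) and `Y` (Lindelöf) with
`dim X = 0`, `dim Y = 0` and `dim (X × Y) ≥ 1`. -/
theorem result : ∃ (X Y : Type) (_ : TopologicalSpace X) (_ : TopologicalSpace Y),
    T35Space X ∧ T35Space Y ∧ Nonempty X ∧ Nonempty Y ∧
    CountablyCompactSpace X ∧ LindelofSpace Y ∧
    covDim X = 0 ∧ covDim Y = 0 ∧ 1 ≤ covDim (X × Y) ∧
    ¬ covDim (X × Y) ≤ covDim X + covDim Y := by
  classical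
  let W : Type := (Cardinal.aleph 1).ord.ToType
  have hW : Cardinal.mk W = Cardinal.aleph 1 := by simp [W]
  have hc : ∀ a : W, (Iio a).Countable := by
    intro a
    have h1 : Cardinal.mk (Iio a) < Cardinal.mk W := Cardinal.mk_Iio_lt a (by simp [W])
    rw [hW] at h1
    rw [← Cardinal.le_aleph0_iff_set_countable, ← Order.lt_succ_iff, ← Cardinal.aleph_zero,
      Cardinal.succ_aleph]
    simpa using h1
  have hu : ¬ (univ : Set W).Countable := by
    intro h
    have h1 := Cardinal.le_aleph0_iff_set_countable.mpr h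
    rw [Cardinal.mk_univ, hW] at h1
    exact absurd h1 (not_le.mpr Cardinal.aleph0_lt_aleph_one)
  have hne : Nonempty W := by
    by_contra hne
    rw [not_nonempty_iff] at hne
    exact hu (Set.countable_univ)
  let tW : TopologicalSpace W := Preorder.topology W
  have oW : OrderTopology W := ⟨rfl⟩
  obtain ⟨ρ, hρ⟩ := exists_rho W (by rw [hW]; exact Cardinal.aleph_one_le_continuum)
  have hYne : Nonempty (YY ρ) := by
    obtain ⟨y, hy1, hy2⟩ := hρ (Icc 0 1) isClosed_Icc (by
      intro h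
      have h1 := (Cardinal.le_aleph0_iff_set_countable).mpr h
      rw [Cardinal.mk_Icc_real zero_lt_one] at h1
      exact absurd h1 (not_le.mpr Cardinal.aleph0_lt_continuum))
      (wellFounded_lt.min univ (univ_nonempty (α := W)))
    refine ⟨⟨fun _ => y, monotone_const, fun a => ?_, lowerSemicontinuous_const,
      fun g => Or.inr fun a _ => rfl⟩⟩
    rw [hy2]
    exact not_lt.mp (wellFounded_lt.not_lt_min univ (mem_univ a))
  have hYL : LindelofSpace (YY ρ) := lindelof_YY hc hu ρ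
  have hYd : DimLE (YY ρ) 0 := by
    apply dimLE_zero_of_lindelof
    intro z O hO hz
    refine clopen_base ?_ z O hO hz
    intro a b hab α
    obtain ⟨β, hβ⟩ := exists_gt' hc hu α
    obtain ⟨y, hy1, hy2⟩ := hρ (Icc ((2 * a + b) / 3) ((a + 2 * b) / 3)) isClosed_Icc (by
      intro h
      have h1 := (Cardinal.le_aleph0_iff_set_countable).mpr h
      rw [Cardinal.mk_Icc_real (by linarith)] at h1
      exact absurd h1 (not_le.mpr Cardinal.aleph0_lt_continuum)) β
    refine ⟨y, ⟨by linarith [hy1.1], by linarith [hy1.2]⟩, ?_⟩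
    rw [hy2]
    exact not_le.mpr hβ
  have hXd : DimLE W 0 := dim_W hc hu
  have h1 : covDim W = 0 := covDim_eq_zero hXd
  have h2 : covDim (YY ρ) = 0 := covDim_eq_zero hYd
  have h3 : 1 ≤ covDim (W × YY ρ) := one_le_covDim (not_dim_prod hc hu hρ)
  refine ⟨W, YY ρ, tW, inferInstance, inferInstance, inferInstance, hne, hYne, cc_W hc hu, hYL,
    h1, h2, h3, ?_⟩
  rw [h1, h2, add_zero]
  intro hle
  have h4 : (1 : EReal) ≤ 0 := h3.trans hle
  exact absurd h4 (by norm_num)

end Pool.Agent.Results.MP_bf7e1e_gt.DimProduct
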